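import Pool.Agent.N623.CS.Stm

/-!
# The pigeonhole principle for nodes

The infinite Carlson–Simpson lemma for left variable words gives the pigeonhole principle for the
nodes of rigid surjections.
-/

namespace Pool.Agent.N727.CS

open Set Pool.Agent.N623.CS

/-! ## Nodes of words -/

/-- The list `L`, followed by `p, p + 1, …`. -/
def ext (L : List ℕ) (p : ℕ) : ℕ → ℕ := fun n => if h : n < L.length then L[n] else p + (n - L.length)

/-- The list `0, …, p - 1`, followed by `x`. -/
def lst (p : ℕ) (x : List (Fin p)) : List ℕ := List.range p ++ x.map Fin.val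

theorem lst_length (p : ℕ) (x : List (Fin p)) : (lst p x).length = p + x.length := by simp [lst]

theorem lst_lt (p : ℕ) (x : List (Fin p)) : ∀ v ∈ lst p x, v < p := by
  intro v hv
  simp only [lst, List.mem_append, List.mem_range, List.mem_map] at hv
  rcases hv with hv | ⟨a, _, rfl⟩
  · exact hv
  · exact a.2

theorem ext_lst_small (p : ℕ) (x : List (Fin p)) (i : ℕ) (hi : i < p) : ext (lst p x) p i = i := by
  have h : i < (lst p x).length := by rw [lst_length]; omega
  rw [ext, dif_pos h]
  simp [lst, hi]

theorem ext_lst_ge (p : ℕ) (x : List (Fin p)) (t : ℕ) :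
    ext (lst p x) p ((lst p x).length + t) = p + t := by
  rw [ext, dif_neg (by omega)]
  omega

theorem ext_lst_mid (p : ℕ) (x : List (Fin p)) (i : ℕ) (hi : i < (lst p x).length) :
    ext (lst p x) p i < p := by
  rw [ext, dif_pos hi]
  exact lst_lt p x _ (List.getElem_mem hi)

theorem isRS_ext (p : ℕ) (x : List (Fin p)) : IsRS (ext (lst p x) p) := by
  have hlen := lst_length p x
  refine ⟨fun m v hv => ?_, fun v => ?_⟩
  · by_cases hm : m < p
    · rw [ext_lst_small p x m hm] at hv
      exact ⟨v, hv, ext_lst_small p x v (by omega)⟩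
    · by_cases hvp : v < p
      · exact ⟨v, by omega, ext_lst_small p x v hvp⟩
      · have hge : (lst p x).length ≤ m := by
          by_contra hc
          have := ext_lst_mid p x m (by omega)
          omega
        obtain ⟨s, rfl⟩ := Nat.exists_eq_add_of_le hge
        rw [ext_lst_ge] at hv
        obtain ⟨t, rfl⟩ := Nat.exists_eq_add_of_le (not_lt.mp hvp)
        exact ⟨(lst p x).length + t, by omega, ext_lst_ge p x t⟩
  · by_cases hvp : v < p
    · exact ⟨v, ext_lst_small p x v hvp⟩
    · obtain ⟨t, rfl⟩ := Nat.exists_eq_add_of_le (not_lt.mp hvp)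
      exact ⟨(lst p x).length + t, ext_lst_ge p x t⟩

/-- The node of the word `x`. -/
def node (p : ℕ) (x : List (Fin p)) : RS := ⟨ext (lst p x) p, isRS_ext p x⟩

theorem node_apply (p : ℕ) (x : List (Fin p)) (n : ℕ) : node p x n = ext (lst p x) p n := rfl

/-! ## The infinite concatenation -/

/-- The prefixes of the infinite concatenation. -/
def P (p : ℕ) (u : List (Fin p)) (w : ℕ → List (Option (Fin p))) : ℕ → List ℕ
  | 0 => lst p u
  | j + 1 => P p u w j ++ ((p + j) :: (w j).map (fun o => o.elim (p + j) Fin.val))

section

variable (p : ℕ) (u : List (Fin p)) (w : ℕ → List (Option (Fin p)))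

theorem P_len (j : ℕ) : p + j ≤ (P p u w j).length := by
  induction j with
  | zero => simp [P, lst_length]
  | succ j ih =>
    simp only [P, List.length_append, List.length_cons, List.length_map]
    omega

theorem P_lt (j : ℕ) : ∀ v ∈ P p u w j, v < p + j := by
  induction j with
  | zero => simpa [P] using lst_lt p u
  | succ j ih =>
    intro v hv
    simp only [P, List.mem_append, List.mem_cons, List.mem_map] at hv
    rcases hv with hv | rfl | ⟨o, _, rfl⟩
    · have := ih v hv
      omega
    · omega
    · cases o with
      | none => simp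
      | some b =>
        have := b.2
        simp only [Option.elim]
        omega

theorem P_prefix_succ (j : ℕ) : P p u w j <+: P p u w (j + 1) := ⟨_, rfl⟩

theorem P_prefix {i j : ℕ} (hij : i ≤ j) : P p u w i <+: P p u w j := by
  induction hij with
  | refl => exact List.prefix_refl _
  | step _ ih => exact ih.trans (P_prefix_succ p u w _)

theorem P_len_succ (j : ℕ) : (P p u w j).length < (P p u w (j + 1)).length := by
  simp only [P, List.length_append, List.length_cons, List.length_map]
  omega

/-- The infinite concatenation. -/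
def H (n : ℕ) : ℕ := (P p u w (n + 1)).getD n 0

theorem H_eq (j n : ℕ) (hn : n < (P p u w j).length) : H p u w n = (P p u w j)[n] := by
  have h1 : n < (P p u w (n + 1)).length := by
    have := P_len p u w (n + 1)
    omega
  rw [H, List.getD_eq_getElem _ _ h1]
  rcases le_total j (n + 1) with h | h
  · exact (List.IsPrefix.getElem (P_prefix p u w h) hn).symm
  · exact List.IsPrefix.getElem (P_prefix p u w h) h1

theorem H_len (j : ℕ) : H p u w (P p u w j).length = p + j := by
  rw [H_eq p u w (j + 1) _ (P_len_succ p u w j)]
  simp [P]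

theorem H_lt (j n : ℕ) (hn : n < (P p u w j).length) : H p u w n < p + j := by
  rw [H_eq p u w j n hn]
  exact P_lt p u w j _ (List.getElem_mem hn)

theorem H_small (n : ℕ) (hn : n < p) : H p u w n = n := by
  have h0 : n < (P p u w 0).length := by
    have := P_len p u w 0
    omega
  rw [H_eq p u w 0 n h0]
  simp [P, lst, hn]

theorem isRS_H : IsRS (H p u w) := by
  refine ⟨fun m v hv => ?_, fun v => ?_⟩
  · by_cases hvp : v < p
    · by_cases hm : m < p
      · rw [H_small p u w m hm] at hv
        exact ⟨v, hv, H_small p u w v hvp⟩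
      · exact ⟨v, by omega, H_small p u w v hvp⟩
    · obtain ⟨t, rfl⟩ := Nat.exists_eq_add_of_le (not_lt.mp hvp)
      refine ⟨(P p u w t).length, ?_, H_len p u w t⟩
      by_contra hc
      have h1 := P_len_succ p u w t
      have h2 := H_lt p u w (t + 1) m (by omega)
      omega
  · by_cases hvp : v < p
    · exact ⟨v, H_small p u w v hvp⟩
    · obtain ⟨t, rfl⟩ := Nat.exists_eq_add_of_le (not_lt.mp hvp)
      exact ⟨(P p u w t).length, H_len p u w t⟩

/-- The infinite concatenation, as a rigid surjection. -/
def HR : RS := ⟨H p u w, isRS_H p u w⟩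

end

/-! ## The pigeonhole principle -/

theorem rs_zero (f : RS) : f 0 = 0 := by
  by_contra h
  obtain ⟨i, hi, _⟩ := f.2.1 0 0 (Nat.pos_of_ne_zero h)
  omega

theorem node_zero (f v : RS) (h : IsNode 0 f v) : v = 1 := by
  obtain ⟨m, hm, hlt, hS, hv⟩ := h
  have hm0 : m = 0 := by
    by_contra hc
    exact hlt 0 (Nat.pos_of_ne_zero hc) (rs_zero f)
  subst hm0
  refine RS.ext fun n => ?_
  rw [RS.one_apply]
  rcases Nat.eq_zero_or_pos n with rfl | hn
  · exact rs_zero v
  · have := hS.2 (n - 1)
    rw [show 0 + 1 + (n - 1) = n by omega] at this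
    exact this

theorem map_P (p : ℕ) (u : List (Fin p)) (w : ℕ → List (Option (Fin p))) (g : RS) (hg : g ∈ K p)
    (a : ℕ → Fin p) (j : ℕ) (ha : ∀ i, i < j → g (p + i) = (a i).1) :
    (P p u w j).map g = lst p (word u w a j) := by
  induction j with
  | zero =>
    have h1 : ∀ v ∈ lst p u, g v = v := fun v hv => hg v (lst_lt p u v hv)
    rw [P, word]
    conv_rhs => rw [← List.map_id (lst p u)]
    exact List.map_congr_left h1
  | succ j ih =>
    have ih' := ih (fun i hi => ha i (by omega))
    have h2 : ∀ o : Option (Fin p), g (o.elim (p + j) Fin.val) = (o.getD (a j)).1 := by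
      intro o
      cases o with
      | none => simpa using ha j (by omega)
      | some b => simpa using hg b.1 b.2
    rw [P, word, List.map_append, ih', lst, lst, List.map_append, List.append_assoc, List.map_cons,
      List.map_cons, ha j (by omega), List.map_map, List.map_map]
    congr 3
    exact List.map_congr_left fun o _ => h2 o

theorem node_word (p : ℕ) (hp : 0 < p) (u : List (Fin p)) (w : ℕ → List (Option (Fin p))) (g : RS)
    (hg : g ∈ K p) (v : RS) (hv : IsNode p (g * HR p u w) v) :
    ∃ (a : ℕ → Fin p) (j : ℕ), v = node p (word u w a j) := by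
  classical
  -- the first occurrence of the letter `p` in `g`
  have hex : ∃ m, g m = p := g.2.2 p
  obtain ⟨M, hM, hmin⟩ : ∃ M, g M = p ∧ ∀ i, i < M → g i ≠ p :=
    ⟨Nat.find hex, Nat.find_spec hex, fun i hi => Nat.find_min hex hi⟩
  have hpM : p ≤ M := by
    by_contra hc
    have := hg M (by omega)
    omega
  obtain ⟨j, rfl⟩ := Nat.exists_eq_add_of_le hpM
  have hlt : ∀ i, i < p + j → g i < p := by
    intro i hi
    rcases lt_trichotomy (g i) p with h | h | h
    · exact h
    · exact absurd h (hmin i hi)
    · obtain ⟨i', hi', h'⟩ := g.2.1 i p h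
      exact absurd h' (hmin i' (by omega))
  let a : ℕ → Fin p := fun i => if h : g (p + i) < p then ⟨g (p + i), h⟩ else ⟨0, hp⟩
  have ha : ∀ i, i < j → g (p + i) = (a i).1 := by
    intro i hi
    have h := hlt (p + i) (by omega)
    simp only [a, dif_pos h]
  have hmap := map_P p u w g hg a j ha
  have hlen : (P p u w j).length = (lst p (word u w a j)).length := by
    rw [← hmap, List.length_map]
  have hHg : ∀ n, (g * HR p u w) n = g (H p u w n) := fun n => rfl
  -- the values of `g * h` on the prefix
  have hval : ∀ n, n < (P p u w j).length →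
      g (H p u w n) = ext (lst p (word u w a j)) p n := by
    intro n hn
    rw [H_eq p u w j n hn, ext, dif_pos (by rw [← hlen]; exact hn)]
    have h3 : n < ((P p u w j).map g).length := by rw [List.length_map]; exact hn
    have h4 : ((P p u w j).map g)[n] = g ((P p u w j)[n]) := by simp
    rw [← h4]
    congr 1
  have hvalp : g (H p u w (P p u w j).length) = p := by rw [H_len]; exact hM
  obtain ⟨m, hm, hmlt, hS, hvv⟩ := hv
  have hmeq : m = (P p u w j).length := by
    rcases lt_trichotomy m (P p u w j).length with h | h | h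
    · have h1 := hval m h
      rw [hHg] at hm
      have h2 := ext_lst_mid p (word u w a j) m (by rw [← hlen]; exact h)
      omega
    · exact h
    · exact absurd hvalp (hmlt _ h)
  subst hmeq
  refine ⟨a, j, RS.ext fun n => ?_⟩
  rw [node_apply]
  rcases lt_trichotomy n (P p u w j).length with h | h | h
  · rw [hvv n h.le, hHg, hval n h]
  · subst h
    rw [hvv _ le_rfl, hHg, hvalp, hlen]
    exact (ext_lst_ge p (word u w a j) 0).symm
  · obtain ⟨t, rfl⟩ := Nat.exists_eq_add_of_le h
    rw [Nat.succ_eq_add_one, hS.2 t, add_assoc, add_assoc, hlen]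
    exact (ext_lst_ge p (word u w a j) (1 + t)).symm

theorem t_pigeon : S_WORD → S_PIGEON := by
  intro hW p O
  rcases Nat.eq_zero_or_pos p with rfl | hp
  · refine ⟨1, one_mem_K 0, ?_⟩
    by_cases h1 : (1 : RS) ∈ O
    · left
      intro g _ v hv
      rw [node_zero _ v hv]
      exact h1
    · right
      intro g _ v hv
      rw [node_zero _ v hv]
      exact h1
  · obtain ⟨u, w, h⟩ := hW p hp {x | node p x ∈ O}
    refine ⟨HR p u w, fun j hj => H_small p u w j hj, ?_⟩
    rcases h with h | h
    · left
      intro g hg v hv
      obtain ⟨a, j, rfl⟩ := node_word p hp u w g hg v hv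
      exact h a j
    · right
      intro g hg v hv
      obtain ⟨a, j, rfl⟩ := node_word p hp u w g hg v hv
      exact h a j

end Pool.Agent.N727.CS
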